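import Mathlib

open Set Metric Filter Topology
open scoped Topology LinearAlgebra.Projectivization

namespace Pool.Agent.Results.MP_7ec995_an.NotEquicontinuous

/-- `ℂ³` with its Hermitian norm. -/
abbrev V := EuclideanSpace ℂ (Fin 3)

/-- The complex projective plane, a compact Kaehler manifold. -/
abbrev P2 := ℙ ℂ V

/-- The Fubini-Study (geodesic) distance of the projective plane: `arccos (|⟨u,v⟩| / (‖u‖ ‖v‖))`
for the lines spanned by `u` and `v`. -/
noncomputable def dFS (x y : P2) : ℝ :=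
  Real.arccos (‖inner ℂ x.rep y.rep‖ / (‖x.rep‖ * ‖y.rep‖))

/-- The unit polydisc of `ℂ^{n+1}`, with points written `(z, w)`, `z ∈ ℂⁿ`, `w ∈ ℂ`. -/
def polydisc (n : ℕ) : Set ((Fin n → ℂ) × ℂ) := {p | (∀ i, ‖p.1 i‖ < 1) ∧ ‖p.2‖ < 1}

/-- The Hartogs figure `H_n^1(r)`. -/
def hartogs (n : ℕ) (r : ℝ) : Set ((Fin n → ℂ) × ℂ) :=
  {p | (∀ i, ‖p.1 i‖ < 1 - r) ∧ ‖p.2‖ < 1} ∪ {p | (∀ i, ‖p.1 i‖ < 1) ∧ r < ‖p.2‖ ∧ ‖p.2‖ < 1}

/-- `f` is a holomorphic map from the unit polydisc to the projective plane: locally it is given by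
holomorphic homogeneous coordinates without common zeros. -/
def HolomorphicMap {n : ℕ} (f : (Fin n → ℂ) × ℂ → P2) : Prop :=
  ∀ p ∈ polydisc n, ∃ U : Set ((Fin n → ℂ) × ℂ), IsOpen U ∧ p ∈ U ∧
    ∃ F : (Fin n → ℂ) × ℂ → V, DifferentiableOn ℂ F U ∧
      ∀ z ∈ U, ∃ h : F z ≠ 0, f z = Projectivization.mk ℂ (F z) h

/-- A family `f` of maps is equicontinuous at `p` relative to `U`. -/
def EquicontAt {n : ℕ} {ι : Type} (f : ι → (Fin n → ℂ) × ℂ → P2) (U : Set ((Fin n → ℂ) × ℂ))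
    (p : (Fin n → ℂ) × ℂ) : Prop :=
  ∀ ε > 0, ∃ δ > 0, ∀ i, ∀ z ∈ U, dist z p < δ → dFS (f i z) (f i p) < ε

/-- A family of maps is equicontinuous on `U`. -/
def EquicontOn {n : ℕ} {ι : Type} (f : ι → (Fin n → ℂ) × ℂ → P2) (U : Set ((Fin n → ℂ) × ℂ)) : Prop :=
  ∀ p ∈ U, EquicontAt f U p

theorem dFS_mk (u v : V) (hu : u ≠ 0) (hv : v ≠ 0) :
    dFS (Projectivization.mk ℂ u hu) (Projectivization.mk ℂ v hv) =
      Real.arccos (‖inner ℂ u v‖ / (‖u‖ * ‖v‖)) := by
  unfold dFS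
  obtain ⟨a, ha⟩ := Projectivization.exists_smul_eq_mk_rep ℂ u hu
  obtain ⟨b, hb⟩ := Projectivization.exists_smul_eq_mk_rep ℂ v hv
  rw [← ha, ← hb]
  congr 1
  have e1 : inner ℂ (a • u) (b • v) = (starRingEnd ℂ) (a : ℂ) * ((b : ℂ) * inner ℂ u v) := by
    rw [Units.smul_def, Units.smul_def, inner_smul_left, inner_smul_right]
  have hna : ‖(a : ℂ)‖ ≠ 0 := norm_ne_zero_iff.2 a.ne_zero
  have hnb : ‖(b : ℂ)‖ ≠ 0 := norm_ne_zero_iff.2 b.ne_zero
  have hnu : ‖u‖ ≠ 0 := norm_ne_zero_iff.2 hu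
  have hnv : ‖v‖ ≠ 0 := norm_ne_zero_iff.2 hv
  rw [e1, Units.smul_def, Units.smul_def, norm_smul, norm_smul, norm_mul, norm_mul,
    RCLike.norm_conj]
  field_simp

/-- closeness of lines from closeness of vectors -/
theorem arccos_small (ε m : ℝ) (hε : 0 < ε) (hm : 0 < m) : ∃ δ > 0, ∀ u v : V, m ≤ ‖v‖ →
    ‖u - v‖ < δ → u ≠ 0 → Real.arccos (‖inner ℂ u v‖ / (‖u‖ * ‖v‖)) < ε := by
  -- continuity of arccos at 1
  have hc : ContinuousAt Real.arccos 1 := Real.continuous_arccos.continuousAt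
  obtain ⟨η, hη, hηε⟩ := Metric.continuousAt_iff.1 hc ε hε
  obtain ⟨s, hs, hsη⟩ : ∃ s : ℝ, 0 < s ∧ 2 * s < η := ⟨η / 4, by positivity, by linarith⟩
  refine ⟨min (s * m) (m / 2), by positivity, ?_⟩
  intro u v hv huv hu
  have hnv : 0 < ‖v‖ := hm.trans_le hv
  have hnu : 0 < ‖u‖ := norm_pos_iff.2 hu
  have h1 : ‖u - v‖ < s * m := huv.trans_le (min_le_left _ _)
  -- lower bound
  have hle : ‖inner ℂ u v‖ ≤ ‖u‖ * ‖v‖ := norm_inner_le_norm _ _
  have hlow : ‖u‖ * ‖u‖ - ‖u‖ * ‖u - v‖ ≤ ‖inner ℂ u v‖ := by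
    -- ⟨u,v⟩ = ⟨u,u⟩ - ⟨u,u-v⟩
    have e : inner ℂ u v = inner ℂ u u - inner ℂ u (u - v) := by
      rw [inner_sub_right]; ring
    have h2 : ‖(inner ℂ u u : ℂ)‖ = ‖u‖ ^ 2 := by
      rw [inner_self_eq_norm_sq_to_K]; simp
    have h3 : ‖inner ℂ u u‖ - ‖inner ℂ u (u - v)‖ ≤ ‖inner ℂ u v‖ := by
      rw [e]; exact norm_sub_norm_le _ _
    have h4 : ‖inner ℂ u (u - v)‖ ≤ ‖u‖ * ‖u - v‖ := norm_inner_le_norm _ _
    rw [h2] at h3
    nlinarith
  have h5 : ‖v‖ - ‖u‖ ≤ ‖u - v‖ := by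
    have := norm_sub_norm_le v u
    rwa [norm_sub_rev] at this
  have h6 : ‖u‖ * ‖v‖ * (1 - 2 * s) ≤ ‖inner ℂ u v‖ := by
    have h7 : ‖u - v‖ ≤ s * ‖v‖ := h1.le.trans (by gcongr)
    have h8 : ‖u‖ - ‖v‖ ≤ ‖u - v‖ := norm_sub_norm_le _ _
    nlinarith [mul_nonneg hnu.le hnv.le]
  have hratio1 : ‖inner ℂ u v‖ / (‖u‖ * ‖v‖) ≤ 1 := (div_le_one (by positivity)).2 hle
  have hratio2 : 1 - 2 * s ≤ ‖inner ℂ u v‖ / (‖u‖ * ‖v‖) := by
    rw [le_div_iff₀ (by positivity)]; linarith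
  have := hηε (x := ‖inner ℂ u v‖ / (‖u‖ * ‖v‖)) (by
    rw [Real.dist_eq, abs_sub_comm, abs_of_nonneg (by linarith)]; linarith)
  rw [Real.dist_eq, Real.arccos_one, sub_zero, abs_of_nonneg (Real.arccos_nonneg _)] at this
  exact this

/-- the homogeneous coordinates -/
noncomputable def lift (n : ℕ) (i0 : Fin n) (c : ℝ) (k : ℕ) (p : (Fin n → ℂ) × ℂ) : V :=
  !₂[p.1 i0 - c, p.2, ((1 / ((k : ℝ) + 1) : ℝ) : ℂ)]

theorem lift_ne (n : ℕ) (i0 : Fin n) (c : ℝ) (k : ℕ) (p : (Fin n → ℂ) × ℂ) :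
    lift n i0 c k p ≠ 0 := by
  intro h
  have h2 : lift n i0 c k p 2 = 0 := by rw [h]; rfl
  have h3 : ((1 / ((k : ℝ) + 1) : ℝ) : ℂ) = 0 := h2
  rw [Complex.ofReal_eq_zero] at h3
  have : (0:ℝ) < 1 / ((k : ℝ) + 1) := by positivity
  linarith

/-- the maps -/
noncomputable def fam (n : ℕ) (i0 : Fin n) (c : ℝ) (k : ℕ) (p : (Fin n → ℂ) × ℂ) : P2 :=
  Projectivization.mk ℂ (lift n i0 c k p) (lift_ne n i0 c k p)

/-- For all `n ≥ 1` and `0 < r < 1` there is a sequence of holomorphic maps from the unit polydisc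
of `ℂ^{n+1}` to the projective plane that is equicontinuous on the Hartogs figure but not on the
polydisc. -/
theorem result (n : ℕ) (hn : 1 ≤ n) (r : ℝ) (hr0 : 0 < r) (hr1 : r < 1) :
    ∃ f : ℕ → (Fin n → ℂ) × ℂ → P2, (∀ k, HolomorphicMap (f k)) ∧
      EquicontOn f (hartogs n r) ∧ ∃ p ∈ polydisc n, ¬ EquicontAt f (polydisc n) p := by
  have i0 : Fin n := ⟨0, hn⟩
  set c : ℝ := 1 - r / 2 with hc
  refine ⟨fam n i0 c, ?_, ?_, ?_⟩
  · intro k p _
    refine ⟨univ, isOpen_univ, mem_univ _, lift n i0 c k, ?_, fun z _ => ⟨lift_ne n i0 c k z, rfl⟩⟩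
    have : Differentiable ℂ (lift n i0 c k) := by
      rw [differentiable_euclidean]
      intro i
      fin_cases i
      · simp only [lift]
        have : Differentiable ℂ fun x : (Fin n → ℂ) × ℂ => x.1 i0 - (c : ℂ) := by fun_prop
        exact this
      · have : Differentiable ℂ fun x : (Fin n → ℂ) × ℂ => x.2 := by fun_prop
        exact this
      · exact differentiable_const _
    exact this.differentiableOn
  · intro p hp ε hε
    -- lower bound for the norm
    have hm : 0 < max ‖p.1 i0 - c‖ ‖p.2‖ := by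
      rcases hp with hp | hp
      · refine lt_max_of_lt_left ?_
        rw [norm_pos_iff, sub_ne_zero]
        intro h
        have h1 := hp.1 i0
        rw [h, Complex.norm_real, Real.norm_of_nonneg (by linarith)] at h1
        linarith
      · exact lt_max_of_lt_right (hr0.trans hp.2.1)
    obtain ⟨δ, hδ, hδε⟩ := arccos_small ε _ hε hm
    refine ⟨δ / 2, by positivity, ?_⟩
    intro k z _ hz
    unfold fam
    rw [dFS_mk]
    refine hδε _ _ ?_ ?_ (lift_ne _ _ _ _ _)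
    · refine max_le ?_ ?_
      · exact PiLp.norm_apply_le (lift n i0 c k p) 0
      · exact PiLp.norm_apply_le (lift n i0 c k p) 1
    · have h1 : ‖z.1 i0 - p.1 i0‖ ≤ dist z p := by
        rw [dist_eq_norm, Prod.norm_def]
        exact (norm_le_pi_norm (z.1 - p.1) i0).trans (le_max_left _ _)
      have h2 : ‖z.2 - p.2‖ ≤ dist z p := by
        rw [dist_eq_norm, Prod.norm_def]
        exact le_max_right _ _
      rw [EuclideanSpace.norm_eq, Fin.sum_univ_three]
      have e0 : (lift n i0 c k z - lift n i0 c k p) 0 = z.1 i0 - p.1 i0 := by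
        simp [lift]
      have e1 : (lift n i0 c k z - lift n i0 c k p) 1 = z.2 - p.2 := by
        simp [lift]
      have e2 : (lift n i0 c k z - lift n i0 c k p) 2 = 0 := by
        simp [lift]
      rw [e0, e1, e2, norm_zero]
      have h3 : ‖z.1 i0 - p.1 i0‖ ^ 2 + ‖z.2 - p.2‖ ^ 2 + 0 ^ 2 < δ ^ 2 := by
        have : ‖z.1 i0 - p.1 i0‖ < δ / 2 := h1.trans_lt hz
        have : ‖z.2 - p.2‖ < δ / 2 := h2.trans_lt hz
        nlinarith [norm_nonneg (z.1 i0 - p.1 i0), norm_nonneg (z.2 - p.2)]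
      exact (Real.sqrt_lt' hδ).2 h3
  · refine ⟨(fun i => if i = i0 then (c : ℂ) else 0, 0), ⟨fun i => ?_, by simp⟩, ?_⟩
    · simp only
      split_ifs
      · rw [Complex.norm_real, Real.norm_of_nonneg (by linarith)]; linarith
      · simp
    · intro heq
      obtain ⟨δ, hδ, hδε⟩ := heq (Real.pi / 4) (by positivity)
      set t : ℝ := min (δ / 2) (r / 4) with ht
      have htpos : 0 < t := by rw [ht]; positivity
      have htδ : t < δ := (min_le_left _ _).trans_lt (by linarith)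
      have htr : t ≤ r / 4 := min_le_right _ _
      obtain ⟨k, hk⟩ := exists_nat_one_div_lt htpos
      have hlt := hδε k ((fun i => if i = i0 then ((c + t : ℝ) : ℂ) else 0, 0)) ⟨fun i => ?_, by simp⟩ ?_
      · unfold fam at hlt
        rw [dFS_mk] at hlt
        set a : ℝ := 1 / ((k : ℝ) + 1) with ha
        have hapos : 0 < a := by rw [ha]; positivity
        have hu : lift n i0 c k (fun i => if i = i0 then ((c + t : ℝ) : ℂ) else 0, 0) =
            !₂[(t : ℂ), 0, (a : ℂ)] := by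
          unfold lift
          rw [← ha]
          congr 1
          simp
        have hv : lift n i0 c k (fun i => if i = i0 then (c : ℂ) else 0, 0) =
            !₂[(0 : ℂ), 0, (a : ℂ)] := by
          unfold lift
          rw [← ha]
          congr 1
          simp
        have hin : inner ℂ (!₂[(t : ℂ), 0, (a : ℂ)] : V) !₂[(0 : ℂ), 0, (a : ℂ)] = ((a ^ 2 : ℝ) : ℂ) := by
          rw [PiLp.inner_apply, Fin.sum_univ_three]
          simp [abs_of_pos hapos]
        have hnu : ‖(!₂[(t : ℂ), 0, (a : ℂ)] : V)‖ = Real.sqrt (t ^ 2 + a ^ 2) := by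
          rw [EuclideanSpace.norm_eq, Fin.sum_univ_three]
          simp
        have hnv : ‖(!₂[(0 : ℂ), 0, (a : ℂ)] : V)‖ = a := by
          rw [EuclideanSpace.norm_eq, Fin.sum_univ_three]
          simp [Real.sqrt_sq hapos.le]
        rw [hu, hv, hin, hnu, hnv, Complex.norm_real, Real.norm_of_nonneg (by positivity)] at hlt
        have hle : a ^ 2 / (Real.sqrt (t ^ 2 + a ^ 2) * a) ≤ Real.cos (Real.pi / 4) := by
          rw [Real.cos_pi_div_four, div_le_iff₀ (by positivity)]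
          have h1 : Real.sqrt 2 * a ≤ Real.sqrt (t ^ 2 + a ^ 2) := by
            refine Real.le_sqrt_of_sq_le ?_
            rw [mul_pow, Real.sq_sqrt (by norm_num)]
            nlinarith
          have h2 : Real.sqrt 2 * Real.sqrt 2 = 2 := Real.mul_self_sqrt (by norm_num)
          have h3 : 0 < Real.sqrt 2 := by positivity
          have h4 : Real.sqrt 2 * (Real.sqrt 2 * a) ≤ Real.sqrt 2 * Real.sqrt (t ^ 2 + a ^ 2) := by
            gcongr
          nlinarith
        have := Real.antitone_arccos hle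
        rw [Real.arccos_cos (by positivity) (by linarith [Real.pi_pos])] at this
        linarith
      · simp only
        split_ifs
        · rw [Complex.norm_real, Real.norm_of_nonneg (by linarith)]; linarith
        · simp
      · rw [dist_eq_norm, Prod.norm_def]
        refine max_lt ?_ (by simpa using hδ)
        refine (pi_norm_lt_iff hδ).2 fun i => ?_
        simp only [Prod.fst_sub, Pi.sub_apply]
        split_ifs
        · have : ((c + t : ℝ) : ℂ) - (c : ℂ) = (t : ℂ) := by push_cast; ring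
          rw [this, Complex.norm_real, Real.norm_of_nonneg htpos.le]
          exact htδ
        · simpa using hδ

end Pool.Agent.Results.MP_7ec995_an.NotEquicontinuous
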